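import Pool.Agent.GEN.StmtsZ

set_option autoImplicit false
set_option linter.unusedSectionVars false

/-! Row ZGY of the squad GEN (helper91): the generating function with a second weight. -/

namespace Pool.Agent.GEN.H91

open Finset Pool.Agent.Helper6_Mono Pool.Agent.Helper30_Simp Pool.Agent.Helper30_Simp2
  Pool.Agent.Helper30_Simp2.H40

section zgy

variable {σ : Type} [Fintype σ] (M : Finset (σ →₀ ℕ)) (θ : σ → ℕ)

/-- the weight of a point -/
noncomputable def wt (w : σ → ℕ) : Polynomial ℤ := Polynomial.X ^ (∑ i, θ i * w i)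

/-- the generating function with two weights of a closed cell -/
noncomputable def gY (S : Finset (Wa M)) (h : Wa M → ℕ) : KY :=
  PowerSeries.mk fun d => ∑ w ∈ (pts_finite M S h d).toFinset, wt θ w

/-- the value of a polynomial -/
noncomputable def vY (h : Wa M → ℕ) (N : ℕ) : MvPolynomial (Wa M) KY →ₗ[KY] KY :=
  (MvPolynomial.basisMonomials (Wa M) KY).constr KY
    (fun m => gY M θ ∅ (fun ρ => h ρ + m ρ + lvl M N ρ))

theorem vY_monomial (m : Wa M →₀ ℕ) (c : KY) (h : Wa M → ℕ) (N : ℕ) :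
    vY M θ h N (MvPolynomial.monomial m c) = c * gY M θ ∅ (fun ρ => h ρ + m ρ + lvl M N ρ) := by
  have h1 : (MvPolynomial.monomial m c : MvPolynomial (Wa M) KY)
      = c • (MvPolynomial.basisMonomials (Wa M) KY) m := by
    rw [MvPolynomial.coe_basisMonomials, MvPolynomial.smul_monomial, smul_eq_mul, mul_one]
  rw [h1, map_smul, vY, Module.Basis.constr_basis, smul_eq_mul]

theorem vY_C_mul (c : KY) (p : MvPolynomial (Wa M) KY) (h : Wa M → ℕ) (N : ℕ) :
    vY M θ h N (MvPolynomial.C c * p) = c * vY M θ h N p := by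
  rw [← MvPolynomial.smul_eq_C_mul, map_smul, smul_eq_mul]

theorem vY_monomial_mul (a : Wa M →₀ ℕ) (c : KY) (p : MvPolynomial (Wa M) KY) (h : Wa M → ℕ)
    (N : ℕ) : vY M θ h N (MvPolynomial.monomial a c * p) = c * vY M θ (fun ρ => h ρ + a ρ) N p := by
  induction p using MvPolynomial.induction_on' with
  | monomial u b =>
    rw [MvPolynomial.monomial_mul, vY_monomial, vY_monomial, mul_assoc]
    congr 3
    funext ρ
    rw [Finsupp.add_apply]
    ring
  | add p q hp hq => rw [mul_add, map_add, hp, hq, map_add, mul_add]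

/-- the ideal -/
noncomputable def aY : Ideal (MvPolynomial (Wa M) KY) where
  carrier := {p | ∀ h, ∃ N₀, ∀ N, N₀ ≤ N → vY M θ h N p = 0}
  zero_mem' := fun h => ⟨0, fun N _ => map_zero _⟩
  add_mem' := by
    intro p q hp hq h
    obtain ⟨N₁, h1⟩ := hp h
    obtain ⟨N₂, h2⟩ := hq h
    refine ⟨max N₁ N₂, fun N hN => ?_⟩
    rw [map_add, h1 N (le_trans (le_max_left _ _) hN), h2 N (le_trans (le_max_right _ _) hN),
      add_zero]
  smul_mem' := by
    intro q p hp
    show ∀ h, ∃ N₀, ∀ N, N₀ ≤ N → vY M θ h N (q * p) = 0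
    induction q using MvPolynomial.induction_on' with
    | monomial u b =>
      intro h
      obtain ⟨N₀, h1⟩ := hp (fun ρ => h ρ + u ρ)
      refine ⟨N₀, fun N hN => ?_⟩
      rw [vY_monomial_mul, h1 N hN, mul_zero]
    | add q r hq hr =>
      intro h
      obtain ⟨N₁, h1⟩ := hq h
      obtain ⟨N₂, h2⟩ := hr h
      refine ⟨max N₁ N₂, fun N hN => ?_⟩
      rw [add_mul, map_add, h1 N (le_trans (le_max_left _ _) hN),
        h2 N (le_trans (le_max_right _ _) hN), add_zero]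

theorem mem_aY (p : MvPolynomial (Wa M) KY) :
    p ∈ aY M θ ↔ ∀ h, ∃ N₀, ∀ N, N₀ ≤ N → vY M θ h N p = 0 := Iff.rfl

theorem gY_translate (S : Finset (Wa M)) (h : Wa M → ℕ) (u : σ → ℕ) :
    gY M θ S (fun ρ => h ρ + wv M u ρ) = XY (∑ i, u i) (∑ i, θ i * u i) * gY M θ S h := by
  refine PowerSeries.ext fun d => ?_
  rw [XY, mul_assoc, PowerSeries.coeff_X_pow_mul', gY, gY, PowerSeries.coeff_mk]
  split_ifs with hd
  · rw [PowerSeries.coeff_C_mul, PowerSeries.coeff_mk, Finset.mul_sum]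
    symm
    refine Finset.sum_bij (fun w _ => fun i => w i + u i) ?_ ?_ ?_ ?_
    · intro w hw
      rw [Set.Finite.mem_toFinset] at hw ⊢
      obtain ⟨⟨h1, h2⟩, h3⟩ := hw
      refine ⟨⟨fun ρ => ?_, fun ρ hρ => ?_⟩, ?_⟩
      · rw [wv_add]
        exact Nat.add_le_add_right (h1 ρ) _
      · rw [wv_add, h2 ρ hρ]
      · have h4 : ∑ i, (w i + u i) = ∑ i, w i + ∑ i, u i := Finset.sum_add_distrib
        rw [h4, h3]
        omega
    · intro w _ v _ huv
      funext i
      have : w i + u i = v i + u i := congrFun huv i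
      omega
    · intro w hw
      rw [Set.Finite.mem_toFinset] at hw
      obtain ⟨⟨h1, h2⟩, h3⟩ := hw
      have hle : ∀ i, u i ≤ w i := by
        intro i
        have := h1 (Sum.inl i)
        exact le_trans (Nat.le_add_left _ _) this
      have hw : w = fun i => (w i - u i) + u i := funext fun i => (Nat.sub_add_cancel (hle i)).symm
      have hwv : ∀ ρ, wv M w ρ = wv M (fun i => w i - u i) ρ + wv M u ρ := by
        intro ρ
        conv_lhs => rw [hw]
        exact wv_add M _ _ _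
      refine ⟨fun i => w i - u i, ?_, hw.symm⟩
      rw [Set.Finite.mem_toFinset]
      refine ⟨⟨fun ρ => ?_, fun ρ hρ => ?_⟩, ?_⟩
      · have h4 := h1 ρ
        rw [hwv] at h4
        exact Nat.le_of_add_le_add_right h4
      · have h4 := h2 ρ hρ
        rw [hwv] at h4
        exact Nat.add_right_cancel h4
      · have h4 : ∑ i, (w i - u i) + ∑ i, u i = ∑ i, w i := by
          rw [← Finset.sum_add_distrib]
          exact Finset.sum_congr rfl fun i _ => Nat.sub_add_cancel (hle i)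
        show ∑ i, (w i - u i) = d - ∑ i, u i
        omega
    · intro w _
      rw [wt, wt, ← pow_add]
      congr 1
      rw [← Finset.sum_add_distrib]
      exact Finset.sum_congr rfl fun i _ => by ring
  · have : pts M S (fun ρ => h ρ + wv M u ρ) d = ∅ := by
      rw [Set.eq_empty_iff_forall_notMem]
      rintro w ⟨⟨h1, _⟩, h3⟩
      have h4 : ∑ i, u i ≤ ∑ i, w i := Finset.sum_le_sum fun i _ =>
        le_trans (Nat.le_add_left _ _) (h1 (Sum.inl i))
      omega
    refine Finset.sum_eq_zero fun w hw => ?_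
    rw [Set.Finite.mem_toFinset, this] at hw
    exact absurd hw (Set.notMem_empty w)

theorem Ev_memY (u : σ → ℕ) :
    Ev M KY u - MvPolynomial.C (XY (∑ i, u i) (∑ i, θ i * u i)) ∈ aY M θ := by
  intro h
  refine ⟨0, fun m _ => ?_⟩
  rw [map_sub, Ev_eq, ← MvPolynomial.monomial_zero', vY_monomial, vY_monomial, one_mul]
  have h1 : (fun ρ => h ρ + (eV M u) ρ + lvl M m ρ)
      = fun ρ => (h ρ + lvl M m ρ) + wv M u ρ := by
    funext ρ
    show h ρ + wv M u ρ + lvl M m ρ = _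
    ring
  have h2 : (fun ρ => h ρ + (0 : Wa M →₀ ℕ) ρ + lvl M m ρ) = fun ρ => (h ρ + lvl M m ρ) := by
    funext ρ
    show h ρ + 0 + lvl M m ρ = _
    ring
  rw [h1, gY_translate M θ ∅ (fun ρ => h ρ + lvl M m ρ) u, h2, sub_self]

theorem gY_insert [DecidableEq (Wa M)] (S : Finset (Wa M)) (r : Wa M) (hr : r ∉ S)
    (h : Wa M → ℕ) :
    gY M θ S h = gY M θ (insert r S) h + gY M θ S (fun ρ => h ρ + (Finsupp.single r 1) ρ) := by
  classical
  refine PowerSeries.ext fun d => ?_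
  rw [map_add, gY, gY, gY, PowerSeries.coeff_mk, PowerSeries.coeff_mk, PowerSeries.coeff_mk,
    ← Finset.sum_union]
  · refine Finset.sum_congr ?_ fun _ _ => rfl
    ext w
    simp only [pts, Set.Finite.mem_toFinset, Finset.mem_union, Set.mem_ofPred_eq,
      Finset.mem_insert]
    constructor
    · rintro ⟨⟨h1, h2⟩, h3⟩
      by_cases h4 : wv M w r = h r
      · exact Or.inl ⟨⟨h1, by rintro ρ (rfl | hρ); exacts [h4, h2 ρ hρ]⟩, h3⟩
      · refine Or.inr ⟨⟨fun ρ => ?_, fun ρ hρ => ?_⟩, h3⟩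
        · by_cases h5 : ρ = r
          · subst h5
            rw [Finsupp.single_eq_same]
            exact Nat.lt_of_le_of_ne (h1 ρ) (Ne.symm h4)
          · rw [Finsupp.single_eq_of_ne h5, add_zero]
            exact h1 ρ
        · have h5 : ρ ≠ r := by rintro rfl; exact hr hρ
          rw [Finsupp.single_eq_of_ne h5, add_zero]
          exact h2 ρ hρ
    · rintro (⟨⟨h1, h2⟩, h3⟩ | ⟨⟨h1, h2⟩, h3⟩)
      · exact ⟨⟨h1, fun ρ hρ => h2 ρ (Or.inr hρ)⟩, h3⟩
      · refine ⟨⟨fun ρ => le_trans (Nat.le_add_right _ _) (h1 ρ), fun ρ hρ => ?_⟩, h3⟩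
        have h5 : ρ ≠ r := by rintro rfl; exact hr hρ
        have h6 := h2 ρ hρ
        rw [Finsupp.single_eq_of_ne h5, add_zero] at h6
        exact h6
  · rw [Finset.disjoint_left]
    intro w hw hw'
    rw [Set.Finite.mem_toFinset] at hw hw'
    obtain ⟨⟨_, h2⟩, _⟩ := hw
    obtain ⟨⟨h1, _⟩, _⟩ := hw'
    have h3 := h2 r (Finset.mem_insert_self r S)
    have h4 : h r + (Finsupp.single r 1 : Wa M →₀ ℕ) r ≤ wv M w r := h1 r
    rw [Finsupp.single_eq_same] at h4
    omega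

theorem vY_Xs (S : Finset (Wa M)) (h : Wa M → ℕ) (N : ℕ) :
    vY M θ h N (Xs M KY S) = gY M θ S (fun ρ => h ρ + lvl M N ρ) := by
  classical
  induction S using Finset.induction_on generalizing h with
  | empty =>
    have h1 : Xs M KY ∅ = MvPolynomial.monomial 0 1 := by
      rw [Xs, Finset.prod_empty]
      rfl
    rw [h1, vY_monomial, one_mul]
    rfl
  | insert r S hr ih =>
    have h1 : Xs M KY (insert r S)
        = Xs M KY S - MvPolynomial.monomial (Finsupp.single r 1) 1 * Xs M KY S := by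
      rw [Xs, Finset.prod_insert hr]
      show (1 - MvPolynomial.X r) * _ = _ - MvPolynomial.X r * _
      rw [sub_mul, one_mul]
      rfl
    rw [h1, map_sub, vY_monomial_mul, one_mul, ih, ih, gY_insert M θ S r hr]
    have h2 : (fun ρ => h ρ + (Finsupp.single r 1 : Wa M →₀ ℕ) ρ + lvl M N ρ)
        = fun ρ => h ρ + lvl M N ρ + (Finsupp.single r 1 : Wa M →₀ ℕ) ρ := by
      funext ρ
      ring
    rw [h2]
    ring

/-- no points on high levels in a trivial cone -/
theorem no_pts (S : Finset (Wa M)) (hS : ∀ u N, InK M S u N → u = 0 ∧ N = 0) (h : Wa M → ℕ) :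
    ∃ N₀, ∀ N, N₀ ≤ N → ∀ w : σ → ℕ,
      ¬ ((∀ ρ, h ρ + lvl M N ρ ≤ wv M w ρ) ∧ ∀ ρ ∈ S, wv M w ρ = h ρ + lvl M N ρ) := by
  by_contra hcon
  push Not at hcon
  -- a sequence of levels and points
  have hfreq : ∃ᶠ N in Filter.atTop, ∃ w : σ → ℕ,
      (∀ ρ, h ρ + lvl M N ρ ≤ wv M w ρ) ∧ ∀ ρ ∈ S, wv M w ρ = h ρ + lvl M N ρ :=
    Filter.frequently_atTop.2 fun a => by
      obtain ⟨N, hN, w, hw⟩ := hcon a
      exact ⟨N, hN, w, hw⟩
  obtain ⟨φ, hφ, hφ2⟩ := Filter.extraction_of_frequently_atTop hfreq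
  choose w hw1 hw2 using hφ2
  let g : ℕ → (σ → ℕ) × (Wa M → ℕ) := fun k =>
    (w k, fun ρ => wv M (w k) ρ - (h ρ + lvl M (φ k) ρ))
  obtain ⟨m, m', hmm, hle⟩ := (wellQuasiOrdered_le (α := (σ → ℕ) × (Wa M → ℕ))) g
  have hle1 : ∀ i, w m i ≤ w m' i := fun i => hle.1 i
  have hle2 : ∀ ρ, wv M (w m) ρ - (h ρ + lvl M (φ m) ρ)
      ≤ wv M (w m') ρ - (h ρ + lvl M (φ m') ρ) := fun ρ => hle.2 ρ
  have hφm : φ m < φ m' := hφ hmm
  have hwm : ∀ ρ, wv M (w m') ρ = wv M (fun i => w m' i - w m i) ρ + wv M (w m) ρ := by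
    intro ρ
    rw [← wv_add]
    congr 1
    funext i
    exact (Nat.sub_add_cancel (hle1 i)).symm
  have hsl : ∀ ρ, slk M (fun i => w m' i - w m i) (φ m' - φ m) ρ
      = ((wv M (w m') ρ : ℤ) - (h ρ + lvl M (φ m') ρ)) - ((wv M (w m) ρ : ℤ)
        - (h ρ + lvl M (φ m) ρ)) := by
    intro ρ
    have h1 := hwm ρ
    rcases ρ with i | α
    · show (((w m' i - w m i : ℕ)) : ℤ) = ((w m' i : ℤ) - (h _ + (0 : ℕ))) - ((w m i : ℤ)
        - (h _ + (0 : ℕ)))
      rw [Nat.cast_sub (hle1 i)]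
      ring
    · show ((dot (fun i => w m' i - w m i) (α : σ →₀ ℕ) : ℕ) : ℤ) - ((φ m' - φ m : ℕ) : ℤ)
        = ((wv M (w m') (Sum.inr α) : ℤ) - (h _ + (φ m' : ℕ))) - ((wv M (w m) (Sum.inr α) : ℤ)
        - (h _ + (φ m : ℕ)))
      rw [h1]
      rw [Nat.cast_sub hφm.le]
      push_cast
      show ((dot (fun i => w m' i - w m i) (α : σ →₀ ℕ) : ℕ) : ℤ) - _ = ((dot (fun i => w m' i - w m i) (α : σ →₀ ℕ) : ℕ) : ℤ) + _ - _ - _
      ring
  have hK : InK M S (fun i => w m' i - w m i) (φ m' - φ m) := by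
    refine ⟨fun ρ => ?_, fun ρ hρ => ?_⟩
    · rw [hsl]
      have h1 := hw1 m ρ
      have h2 := hw1 m' ρ
      have h3 := hle2 ρ
      omega
    · rw [hsl, hw2 m ρ hρ, hw2 m' ρ hρ]
      push_cast
      ring
  have := (hS _ _ hK).2
  omega

theorem Xs_memY (S : Finset (Wa M)) (hS : ∀ u N, InK M S u N → u = 0 ∧ N = 0) :
    Xs M KY S ∈ aY M θ := by
  intro h
  obtain ⟨N₀, hN₀⟩ := no_pts M S hS h
  refine ⟨N₀, fun N hN => ?_⟩
  rw [vY_Xs]
  refine PowerSeries.ext fun d => ?_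
  rw [gY, PowerSeries.coeff_mk, map_zero]
  refine Finset.sum_eq_zero fun w hw => ?_
  rw [Set.Finite.mem_toFinset] at hw
  exact absurd hw.1 (hN₀ N hN w)

theorem ev1_gY (h : Wa M → ℕ) : ev1 (gY M θ ∅ h) = GG M h := by
  rw [GG_eq]
  refine PowerSeries.ext fun d => ?_
  rw [ev1, PowerSeries.coeff_map, gY, gfS, PowerSeries.coeff_mk, PowerSeries.coeff_mk, map_sum,
    Set.ncard_eq_toFinset_card _ (pts_finite M ∅ h d)]
  simp [wt]

theorem ev1_vY (p : MvPolynomial (Wa M) KY) (h : Wa M → ℕ) (N : ℕ) :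
    val M (MvPolynomial.map ev1 p) h N = ev1 (vY M θ h N p) := by
  induction p using MvPolynomial.induction_on' with
  | monomial u b =>
    rw [MvPolynomial.map_monomial, val_monomial, vY_monomial, map_mul, ev1_gY]
  | add p q hp hq => rw [map_add, val_add, hp, hq, map_add, map_add]

end zgy

/-- **Row ZGY** -/
theorem zgy : ZgyStmt := by
  intro σ _ M _ θ
  refine ⟨aY M θ, Ev_memY M θ, Xs_memY M θ, ?_, ?_⟩
  · intro c hc p hp h
    obtain ⟨N₀, hN₀⟩ := hp h
    refine ⟨N₀, fun N hN => ?_⟩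
    have h1 := hN₀ N hN
    rw [vY_C_mul] at h1
    exact (mul_eq_zero.1 h1).resolve_left hc
  · intro p hp P h
    obtain ⟨N₀, hN₀⟩ := hp h
    refine .fin _ N₀ fun m hm => ?_
    rw [ev1_vY M θ, hN₀ m hm, map_zero]

end Pool.Agent.GEN.H91
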